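import Mathlib
import Pool.Agent.X18.UniTriGroup

/-!
# `ω(UU_n(F_q))` is not a single polynomial for large `q`, already for `n = 4`
-/

set_option autoImplicit false

namespace Pool.Agent.Results.MP_55cbc6_al.NotAllPolynomial

open Pool.Agent.X18.UniTriGroup

/-- `ω(UU_n(F_q))` is a single polynomial for large `q`. -/
def IsSinglePolynomial (n : ℕ) : Prop :=
  ∃ (P : Polynomial ℝ) (q₀ : ℕ), ∀ (F : Type) [Field F] [Fintype F],
    q₀ ≤ Fintype.card F → (omega (UU n F) : ℝ) = P.eval (Fintype.card F : ℝ)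

/-- For `n = 4` the number `ω(UU_n(F_q))` is not a single polynomial for large `q`; so it is false
that it is one for every `n ≥ 4`. -/
theorem result : ¬ IsSinglePolynomial 4 ∧ ¬ ∀ n : ℕ, 4 ≤ n → IsSinglePolynomial n := by
  have h4 : ¬ IsSinglePolynomial 4 := by
    rintro ⟨P, q₀, hP⟩
    exact no_polynomial P q₀ hP
  exact ⟨h4, fun h => h4 (h 4 le_rfl)⟩

end Pool.Agent.Results.MP_55cbc6_al.NotAllPolynomial
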